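import Mathlib
import Pool.Agent.H524R3.NilDefs
import Pool.Agent.H524R3.NilQuad
import Pool.Agent.H524R3.NilExample

set_option autoImplicit false

open H524R3 MeasureTheory

namespace Pool.Agent.Results.MP_8ac988_an.QuadraticCorrelation

/-- There are a non-atomic Lebesgue probability space (X, μ), two invertible commuting measure preserving
maps T₁, T₂ of X which generate a free action of ℤ² (so T₁ and T₂ are not powers of a single transformation) and
measurable functions f, g, h bounded by 1 such that the correlation sequence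
a (m, n) = ∫ f · g(T₁^m T₂^n x) · h(T₁^n T₂^m x) dμ is not an approximate 1-step nilsequence in 2 variables.
(The example: the skew rotations T₁ (x, y) = (x + α, y + x), T₂ (x, y) = (x - α, y - x) of the 2-torus,
α irrational, for which a (m, n) = exp (2 π i α ((m - n)² - (m + n))) with characters f, g, h.) -/
theorem result :
    ∃ (X : Type) (_ : MeasurableSpace X) (_ : StandardBorelSpace X) (μ : Measure X)
      (_ : IsProbabilityMeasure μ) (T₁ T₂ : X ≃ᵐ X),
      (∀ x, μ {x} = 0) ∧ MeasurePreserving T₁ μ μ ∧ MeasurePreserving T₂ μ μ ∧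
      (∀ x, T₁ (T₂ x) = T₂ (T₁ x)) ∧
      (∀ m n m' n' : ℕ, (m, n) ≠ (m', n') → ∀ x, T₁^[m] (T₂^[n] x) ≠ T₁^[m'] (T₂^[n'] x)) ∧
      ∃ f g h : X → ℂ, Measurable f ∧ Measurable g ∧ Measurable h ∧
        (∀ x, ‖f x‖ ≤ 1) ∧ (∀ x, ‖g x‖ ≤ 1) ∧ (∀ x, ‖h x‖ ≤ 1) ∧
        ¬ IsApproxNilseq 1
          (fun m n => ∫ x, f x * g (T₁^[m] (T₂^[n] x)) * h (T₁^[n] (T₂^[m] x)) ∂μ) := by
  have hα : Irrational (Real.sqrt 2) := irrational_sqrt_two
  have hp := prob_tor
  refine ⟨Tor, inferInstance, inferInstance, volume, hp, (skewA (Real.sqrt 2)).toMeasurableEquiv,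
    (skewB (Real.sqrt 2)).toMeasurableEquiv, ?_, skewA_mp _, skewB_mp _, skew_comm _, ?_, fF, fG, fG,
    ?_, ?_, ?_, ?_, ?_, ?_, ?_⟩
  · intro x
    have h1 : ({x} : Set Tor) = {x.1} ×ˢ {x.2} := by
      ext ⟨a, b⟩
      simp [Prod.ext_iff]
    have h2 : (volume : Measure UnitAddCircle) {x.1} = 0 := by
      have h3 := AddCircle.volume_closedBall (1 : ℝ) (x := x.1) 0
      rw [Metric.closedBall_zero] at h3
      rw [h3]
      simp
    rw [h1]
    show ((volume : Measure UnitAddCircle).prod (volume : Measure UnitAddCircle)) _ = 0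
    rw [Measure.prod_prod, h2, zero_mul]
  · intro m n m' n' hne x
    exact skew_free _ hα m n m' n' hne x
  · exact ((fourier (-2)).continuous.comp continuous_snd).measurable
  · exact ((fourier 1).continuous.comp continuous_snd).measurable
  · exact ((fourier 1).continuous.comp continuous_snd).measurable
  · intro x
    unfold fF; rw [fourier_apply]; exact (Circle.norm_coe _).le
  · intro x
    unfold fG; rw [fourier_apply]; exact (Circle.norm_coe _).le
  · intro x
    unfold fG; rw [fourier_apply]; exact (Circle.norm_coe _).le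
  · have h1 : (fun m n : ℕ => ∫ x : Tor, fF x *
        fG ((⇑(skewA (Real.sqrt 2)).toMeasurableEquiv)^[m] ((⇑(skewB (Real.sqrt 2)).toMeasurableEquiv)^[n] x)) *
        fG ((⇑(skewA (Real.sqrt 2)).toMeasurableEquiv)^[n] ((⇑(skewB (Real.sqrt 2)).toMeasurableEquiv)^[m] x)))
        = quadSeq (Real.sqrt 2) := by
      funext m n
      exact correlation_eq _ m n
    rw [h1]
    exact quad_not_approx _ hα

end Pool.Agent.Results.MP_8ac988_an.QuadraticCorrelation
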